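import Mathlib

/-!
# All pairs of values of the surjective span and the surjective semi-span

For all `0 ≤ a ≤ b ≤ ∞` there is a path connected metric space whose surjective span is `a` and
whose surjective semi-span is `b`.

The space is a circle of diameter `a` with a half-line attached at one point, in the plane times a
line, with the maximum metric cut off at `b` (and the line `ℝ` for `a = b = ∞`). If both
projections of a connected set `C` are onto, then at some point `(x, y)` of `C` both coordinates
have the same height, and then `d(x, y) ≤ a`; and moving one point to infinity is enough for the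
semi-span.
-/

open scoped ENNReal

namespace Pool.Agent.Results.MP_c087c9_gt.AllPairs

/-- The surjective span of a metric space, with values in `[0, ∞]`: the supremum, over all
connected sets `C ⊆ X × X` both of whose projections are all of `X`, of the infimum of
`d (x, y)` over `(x, y) ∈ C`. -/
noncomputable def surjectiveSpan (X : Type) [MetricSpace X] : ENNReal :=
  ⨆ (C : Set (X × X)) (_ : IsConnected C)
    (_ : Prod.fst '' C = Set.univ ∧ Prod.snd '' C = Set.univ), ⨅ p ∈ C, edist p.1 p.2

/-- The surjective semi-span of a metric space, with values in `[0, ∞]`: the supremum, over all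
connected sets `C ⊆ X × X` at least one of whose projections is all of `X`, of the infimum of
`d (x, y)` over `(x, y) ∈ C`. -/
noncomputable def surjectiveSemispan (X : Type) [MetricSpace X] : ENNReal :=
  ⨆ (C : Set (X × X)) (_ : IsConnected C)
    (_ : Prod.fst '' C = Set.univ ∨ Prod.snd '' C = Set.univ), ⨅ p ∈ C, edist p.1 p.2

/-! ### Cutting off a metric -/

/-- The type `X` with the metric `min b d`. -/
structure Cut (b : ℝ≥0∞) (X : Type) where
  /-- the point -/
  pt : X

variable {b : ℝ≥0∞} {X : Type} [MetricSpace X]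

noncomputable instance [hb : Fact (b ≠ 0)] : EMetricSpace (Cut b X) where
  edist x y := min b (edist x.pt y.pt)
  edist_self x := by simp
  edist_comm x y := by simp [edist_comm]
  edist_triangle x y z := by
    have h := edist_triangle x.pt y.pt z.pt
    rcases le_total b (edist x.pt y.pt) with h1 | h1
    · rw [min_eq_left h1]
      exact (min_le_left _ _).trans le_self_add
    · rcases le_total b (edist y.pt z.pt) with h2 | h2
      · rw [min_eq_left h2]
        exact (min_le_left _ _).trans le_add_self
      · rw [min_eq_right h1, min_eq_right h2]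
        exact (min_le_right _ _).trans h
  eq_of_edist_eq_zero {x y} h := by
    rcases min_eq_iff.1 h with h | h
    · exact absurd h.1 hb.out
    · have := edist_eq_zero.1 h.1
      cases x; cases y; simp_all

theorem edist_cut [Fact (b ≠ 0)] (x y : Cut b X) : edist x y = min b (edist x.pt y.pt) := rfl

theorem cut_ne_top [Fact (b ≠ 0)] (x y : Cut b X) : edist x y ≠ ⊤ :=
  ne_top_of_le_ne_top (edist_ne_top x.pt y.pt) (min_le_right _ _)

noncomputable instance [Fact (b ≠ 0)] : MetricSpace (Cut b X) :=
  EMetricSpace.toMetricSpace cut_ne_top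

theorem edist_cut' [Fact (b ≠ 0)] (x y : Cut b X) :
    edist x y = min b (edist x.pt y.pt) := rfl

theorem continuous_mk [Fact (b ≠ 0)] : Continuous (Cut.mk : X → Cut b X) := by
  refine LipschitzWith.continuous (K := 1) fun x y => ?_
  rw [edist_cut', ENNReal.coe_one, one_mul]
  exact min_le_right _ _

theorem continuous_pt [hb : Fact (b ≠ 0)] : Continuous (Cut.pt : Cut b X → X) := by
  rw [EMetric.continuous_iff]
  intro x ε hε
  refine ⟨min b ε, lt_min (pos_iff_ne_zero.2 hb.out) hε, fun y hy => ?_⟩
  rw [edist_cut'] at hy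
  rcases min_lt_iff.1 (hy.trans_le (min_le_left _ _)) with h | h
  · exact absurd h (lt_irrefl _)
  · rcases min_lt_iff.1 (hy.trans_le (min_le_right _ _)) with h' | h'
    · exact h.trans h'
    · exact h'

/-- `X` and the cut off space are uniformly equivalent. -/
noncomputable def cutEquiv [hb : Fact (b ≠ 0)] : X ≃ᵤ Cut b X where
  toFun := Cut.mk
  invFun := Cut.pt
  left_inv _ := rfl
  right_inv _ := rfl
  uniformContinuous_toFun := by
    refine LipschitzWith.uniformContinuous (K := 1) fun x y => ?_
    rw [edist_cut', ENNReal.coe_one, one_mul]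
    exact min_le_right _ _
  uniformContinuous_invFun := by
    rw [EMetric.uniformContinuous_iff]
    intro ε hε
    refine ⟨min b ε, lt_min (pos_iff_ne_zero.2 hb.out) hε, fun {x y} hy => ?_⟩
    rw [edist_cut'] at hy
    rcases min_lt_iff.1 (hy.trans_le (min_le_left _ _)) with h | h
    · exact absurd h (lt_irrefl _)
    · rcases min_lt_iff.1 (hy.trans_le (min_le_right _ _)) with h' | h'
      · exact h.trans h'
      · exact h'

/-! ### The circle with a half-line attached -/

/-- The circle of radius `α / 2` in the plane of height `0`, and the half-line above its point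
`α / 2`. -/
def noose (α : ℝ) : Set (ℝ × ℂ) :=
  {p | 0 ≤ p.1 ∧ ‖p.2‖ = α / 2 ∧ (p.1 = 0 ∨ p.2 = ((α / 2 : ℝ) : ℂ))}

/-- The time `t`, kept between `-3π` and `0`. -/
noncomputable def cl (t : ℝ) : ℝ := max (min t 0) (-(3 * Real.pi))

/-- A point which runs around the circle for `-3π ≤ t ≤ 0`. -/
noncomputable def w (α t : ℝ) : ℂ := ((α / 2 : ℝ) : ℂ) * Complex.exp ((cl t : ℝ) * Complex.I)

theorem continuous_w (α : ℝ) : Continuous (w α) := by
  unfold w cl
  fun_prop

theorem norm_w {α : ℝ} (hα : 0 ≤ α) (t : ℝ) : ‖w α t‖ = α / 2 := by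
  unfold w
  rw [norm_mul, Complex.norm_exp_ofReal_mul_I, mul_one, Complex.norm_real, Real.norm_eq_abs,
    abs_of_nonneg (by positivity)]

theorem exp_three : Complex.exp (((-(3 * Real.pi) : ℝ) : ℂ) * Complex.I) = -1 := by
  have h : (((-(3 * Real.pi) : ℝ) : ℂ) * Complex.I) =
      Real.pi * Complex.I - 2 * (2 * Real.pi * Complex.I) := by
    push_cast; ring
  rw [h, Complex.exp_sub, Complex.exp_pi_mul_I]
  have : Complex.exp (2 * (2 * Real.pi * Complex.I)) = 1 := by
    have := Complex.exp_int_mul_two_pi_mul_I 2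
    simpa using this
  rw [this, div_one]

/-- The first walker. -/
noncomputable def xx (α t : ℝ) : ℝ × ℂ := (max t 0, w α t)

/-- The second walker. -/
noncomputable def yy (α t : ℝ) : ℝ × ℂ := (max (-(3 * Real.pi) - t) 0, - w α t)

theorem mem_xx {α : ℝ} (hα : 0 ≤ α) (t : ℝ) : xx α t ∈ noose α := by
  refine ⟨le_max_right _ _, norm_w hα t, ?_⟩
  rcases le_total t 0 with h | h
  · left; exact max_eq_right h
  · right
    have : cl t = 0 := by
      unfold cl
      rw [min_eq_right h, max_eq_left]
      have := Real.pi_pos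
      linarith
    simp only [xx, w, this]
    simp

theorem mem_yy {α : ℝ} (hα : 0 ≤ α) (t : ℝ) : yy α t ∈ noose α := by
  refine ⟨le_max_right _ _, by rw [yy, norm_neg]; exact norm_w hα t, ?_⟩
  rcases le_total (-(3 * Real.pi) - t) 0 with h | h
  · left; exact max_eq_right h
  · right
    have : cl t = -(3 * Real.pi) := by
      unfold cl
      rw [max_eq_right]
      exact (min_le_left _ _).trans (by linarith)
    simp only [yy, w, this]
    rw [exp_three]
    ring

theorem polar {α : ℝ} {z : ℂ} (hz : ‖z‖ = α / 2) :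
    z = ((α / 2 : ℝ) : ℂ) * Complex.exp (Complex.arg z * Complex.I) := by
  rw [← hz]
  exact (Complex.norm_mul_exp_arg_mul_I z).symm

theorem surj_xx {α : ℝ} {p : ℝ × ℂ} (hp : p ∈ noose α) : ∃ t, xx α t = p := by
  obtain ⟨h1, h2, h3⟩ := hp
  have hpi := Real.pi_pos
  rcases eq_or_lt_of_le h1 with h | h
  · refine ⟨Complex.arg p.2 - 2 * Real.pi, ?_⟩
    have ha := Complex.arg_le_pi p.2
    have hb := Complex.neg_pi_lt_arg p.2
    have hc : cl (Complex.arg p.2 - 2 * Real.pi) = Complex.arg p.2 - 2 * Real.pi := by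
      unfold cl
      rw [min_eq_left (by linarith), max_eq_left (by linarith)]
    refine Prod.ext ?_ ?_
    · simp only [xx]
      rw [← h, max_eq_right (by linarith)]
    · simp only [xx, w, hc]
      conv_rhs => rw [polar h2]
      congr 1
      have : (((Complex.arg p.2 - 2 * Real.pi : ℝ) : ℂ) * Complex.I) =
          Complex.arg p.2 * Complex.I - (2 * Real.pi * Complex.I) := by
        push_cast; ring
      rw [this, Complex.exp_sub, Complex.exp_two_pi_mul_I, div_one]
  · refine ⟨p.1, ?_⟩
    have hp2 : p.2 = ((α / 2 : ℝ) : ℂ) := h3.resolve_left h.ne'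
    have : cl p.1 = 0 := by
      unfold cl
      rw [min_eq_right h.le, max_eq_left]
      linarith
    refine Prod.ext ?_ ?_
    · simp only [xx]
      rw [max_eq_left h.le]
    · simp only [xx, w, this]
      rw [hp2]
      simp

theorem surj_yy {α : ℝ} {p : ℝ × ℂ} (hp : p ∈ noose α) : ∃ t, yy α t = p := by
  obtain ⟨h1, h2, h3⟩ := hp
  have hpi := Real.pi_pos
  rcases eq_or_lt_of_le h1 with h | h
  · refine ⟨Complex.arg p.2 - Real.pi, ?_⟩
    have ha := Complex.arg_le_pi p.2
    have hb := Complex.neg_pi_lt_arg p.2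
    have hc : cl (Complex.arg p.2 - Real.pi) = Complex.arg p.2 - Real.pi := by
      unfold cl
      rw [min_eq_left (by linarith), max_eq_left (by linarith)]
    refine Prod.ext ?_ ?_
    · simp only [yy]
      rw [← h, max_eq_right (by linarith)]
    · simp only [yy, w, hc]
      conv_rhs => rw [polar h2]
      have : (((Complex.arg p.2 - Real.pi : ℝ) : ℂ) * Complex.I) =
          Complex.arg p.2 * Complex.I - (Real.pi * Complex.I) := by
        push_cast; ring
      rw [this, Complex.exp_sub, Complex.exp_pi_mul_I]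
      ring
  · refine ⟨-(3 * Real.pi) - p.1, ?_⟩
    have hp2 : p.2 = ((α / 2 : ℝ) : ℂ) := h3.resolve_left h.ne'
    have : cl (-(3 * Real.pi) - p.1) = -(3 * Real.pi) := by
      unfold cl
      rw [max_eq_right]
      exact (min_le_left _ _).trans (by linarith)
    refine Prod.ext ?_ ?_
    · simp only [yy]
      rw [max_eq_left (by linarith)]
      ring
    · simp only [yy, w, this]
      rw [exp_three, hp2]
      ring

theorem edist_xx_yy {α : ℝ} (hα : 0 ≤ α) (t : ℝ) :
    ENNReal.ofReal α ≤ edist (xx α t) (yy α t) := by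
  rw [Prod.edist_eq]
  refine le_max_of_le_right ?_
  rw [edist_dist]
  refine ENNReal.ofReal_le_ofReal ?_
  simp only [xx, yy]
  rw [dist_eq_norm, sub_neg_eq_add, ← two_mul, norm_mul, norm_w hα, Complex.norm_ofNat]
  linarith

/-! ### The two spans of the space -/

/-- The space: the noose with the maximum metric cut off at `b`. -/
abbrev Sp (b : ℝ≥0∞) (α : ℝ) : Type := Cut b (noose α)

theorem continuous_height [Fact (b ≠ 0)] (α : ℝ) :
    Continuous (fun p : Sp b α => (p.pt : ℝ × ℂ).1) :=
  continuous_fst.comp (continuous_subtype_val.comp continuous_pt)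

/-- The first walker in the space. -/
noncomputable def X1 (b : ℝ≥0∞) {α : ℝ} (hα : 0 ≤ α) (t : ℝ) : Sp b α := ⟨⟨xx α t, mem_xx hα t⟩⟩

/-- The second walker in the space. -/
noncomputable def X2 (b : ℝ≥0∞) {α : ℝ} (hα : 0 ≤ α) (t : ℝ) : Sp b α := ⟨⟨yy α t, mem_yy hα t⟩⟩

theorem continuous_X1 [Fact (b ≠ 0)] {α : ℝ} (hα : 0 ≤ α) : Continuous (X1 b hα) := by
  refine continuous_mk.comp (Continuous.subtype_mk ?_ _)
  exact (continuous_id.max continuous_const).prodMk (continuous_w α)

theorem continuous_X2 [Fact (b ≠ 0)] {α : ℝ} (hα : 0 ≤ α) : Continuous (X2 b hα) := by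
  refine continuous_mk.comp (Continuous.subtype_mk ?_ _)
  exact ((continuous_const.sub continuous_id).max continuous_const).prodMk (continuous_w α).neg

theorem surj_X1 {α : ℝ} (hα : 0 ≤ α) : Function.Surjective (X1 b hα) := by
  rintro ⟨⟨p, hp⟩⟩
  obtain ⟨t, rfl⟩ := surj_xx hp
  exact ⟨t, rfl⟩

theorem surj_X2 {α : ℝ} (hα : 0 ≤ α) : Function.Surjective (X2 b hα) := by
  rintro ⟨⟨p, hp⟩⟩
  obtain ⟨t, rfl⟩ := surj_yy hp
  exact ⟨t, rfl⟩

theorem pathConnected [Fact (b ≠ 0)] {α : ℝ} (hα : 0 ≤ α) : PathConnectedSpace (Sp b α) :=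
  (surj_X1 hα).pathConnectedSpace (continuous_X1 hα)

theorem isClosed_noose (α : ℝ) : IsClosed (noose α) := by
  unfold noose
  simp only [Set.ofPred_and, Set.ofPred_or]
  exact (isClosed_le continuous_const continuous_fst).inter
    ((isClosed_eq (continuous_norm.comp continuous_snd) continuous_const).inter
      ((isClosed_eq continuous_fst continuous_const).union
        (isClosed_eq continuous_snd continuous_const)))

theorem complete [Fact (b ≠ 0)] (α : ℝ) : CompleteSpace (Sp b α) := by
  have : CompleteSpace (noose α) := (isClosed_noose α).completeSpace_coe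
  exact (cutEquiv (b := b) (X := noose α)).completeSpace_iff.1 this

theorem locallyCompact [Fact (b ≠ 0)] (α : ℝ) : LocallyCompactSpace (Sp b α) := by
  have : LocallyCompactSpace (noose α) := (isClosed_noose α).locallyCompactSpace
  exact (cutEquiv (b := b) (X := noose α)).symm.toHomeomorph.isClosedEmbedding.locallyCompactSpace

theorem span_eq [Fact (b ≠ 0)] {α : ℝ} (hα : 0 ≤ α) :
    surjectiveSpan (Sp b α) = min b (ENNReal.ofReal α) := by
  refine le_antisymm ?_ ?_
  · refine iSup_le fun C => iSup_le fun hC => iSup_le fun hs => ?_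
    obtain ⟨h1, h2⟩ := hs
    have hg : Continuous fun p : Sp b α × Sp b α =>
        (p.1.pt : ℝ × ℂ).1 - (p.2.pt : ℝ × ℂ).1 :=
      ((continuous_height α).comp continuous_fst).sub ((continuous_height α).comp continuous_snd)
    let e : Sp b α := X1 b hα 0
    have he0 : (e.pt : ℝ × ℂ).1 = 0 := by simp [e, X1, xx]
    have he1 : e ∈ Prod.fst '' C := by rw [h1]; trivial
    have he2 : e ∈ Prod.snd '' C := by rw [h2]; trivial
    obtain ⟨p, hp, hpe⟩ := he1
    obtain ⟨q, hq, hqe⟩ := he2
    have hpl : (p.1.pt : ℝ × ℂ).1 - (p.2.pt : ℝ × ℂ).1 ≤ 0 := by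
      rw [hpe, he0]
      have := p.2.pt.2.1
      linarith
    have hqr : 0 ≤ (q.1.pt : ℝ × ℂ).1 - (q.2.pt : ℝ × ℂ).1 := by
      rw [hqe, he0]
      have := q.1.pt.2.1
      linarith
    obtain ⟨v, hv, hv0⟩ := hC.isPreconnected.intermediate_value hp hq hg.continuousOn ⟨hpl, hqr⟩
    refine (iInf₂_le v hv).trans ?_
    rw [edist_cut']
    refine min_le_min_left _ ?_
    have hh : (v.1.pt : ℝ × ℂ).1 = (v.2.pt : ℝ × ℂ).1 := sub_eq_zero.1 hv0
    have n1 := v.1.pt.2.2.1
    have n2 := v.2.pt.2.2.1
    rw [Subtype.edist_eq, Prod.edist_eq, hh, edist_self]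
    refine max_le zero_le ?_
    rw [edist_dist]
    refine ENNReal.ofReal_le_ofReal ?_
    rw [dist_eq_norm]
    refine (norm_sub_le _ _).trans ?_
    rw [n1, n2]
    linarith
  · refine le_iSup_of_le (Set.range fun t => (X1 b hα t, X2 b hα t)) (le_iSup_of_le ?_
      (le_iSup_of_le ⟨?_, ?_⟩ ?_))
    · exact isConnected_range ((continuous_X1 hα).prodMk (continuous_X2 hα))
    · ext x
      simp only [Set.mem_univ, iff_true]
      obtain ⟨t, rfl⟩ := surj_X1 hα x
      exact ⟨_, ⟨t, rfl⟩, rfl⟩
    · ext x
      simp only [Set.mem_univ, iff_true]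
      obtain ⟨t, rfl⟩ := surj_X2 hα x
      exact ⟨_, ⟨t, rfl⟩, rfl⟩
    · refine le_iInf₂ ?_
      rintro _ ⟨t, rfl⟩
      rw [edist_cut']
      exact min_le_min_left _ (edist_xx_yy hα t)

theorem far_mem {α : ℝ} (hα : 0 ≤ α) (N : ℕ) (p : noose α) :
    ((p : ℝ × ℂ).1 + N, (((α / 2 : ℝ) : ℂ))) ∈ noose α := by
  refine ⟨add_nonneg p.2.1 N.cast_nonneg, ?_, Or.inr rfl⟩
  simp only
  rw [Complex.norm_real, Real.norm_eq_abs, abs_of_nonneg (by positivity)]

theorem semispan_eq [Fact (b ≠ 0)] {α : ℝ} (hα : 0 ≤ α) :
    surjectiveSemispan (Sp b α) = b := by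
  refine le_antisymm ?_ ?_
  · refine iSup_le fun C => iSup_le fun hC => iSup_le fun hs => ?_
    obtain ⟨v, hv⟩ := hC.nonempty
    refine (iInf₂_le v hv).trans ?_
    rw [edist_cut']
    exact min_le_left _ _
  · have key : ∀ N : ℕ, min b (N : ℝ≥0∞) ≤ surjectiveSemispan (Sp b α) := by
      intro N
      have : PathConnectedSpace (Sp b α) := pathConnected hα
      refine le_iSup_of_le (Set.range fun x : Sp b α =>
        (x, (⟨⟨_, far_mem hα N x.pt⟩⟩ : Sp b α))) (le_iSup_of_le ?_ (le_iSup_of_le ?_ ?_))
      · refine isConnected_range (continuous_id.prodMk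
          (continuous_mk.comp (Continuous.subtype_mk ?_ _)))
        exact ((continuous_height α).add continuous_const).prodMk continuous_const
      · left
        ext x
        simp only [Set.mem_univ, iff_true]
        exact ⟨_, ⟨x, rfl⟩, rfl⟩
      · refine le_iInf₂ ?_
        rintro _ ⟨x, rfl⟩
        rw [edist_cut']
        refine min_le_min_left _ ?_
        rw [Subtype.edist_eq, Prod.edist_eq]
        refine le_max_of_le_left ?_
        rw [edist_dist, Real.dist_eq]
        simp
    refine le_of_forall_lt fun c hc => ?_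
    obtain ⟨N, hN⟩ := ENNReal.exists_nat_gt (ne_top_of_lt hc)
    exact (lt_min hc hN).trans_le (key N)

theorem line_span : surjectiveSpan ℝ = ⊤ := by
  refine top_unique (le_of_forall_lt fun c hc => ?_)
  obtain ⟨N, hN⟩ := ENNReal.exists_nat_gt (ne_top_of_lt hc)
  refine hN.trans_le ?_
  refine le_iSup_of_le (Set.range fun t : ℝ => (t, t + N)) (le_iSup_of_le ?_
      (le_iSup_of_le ⟨?_, ?_⟩ ?_))
  · exact isConnected_range (by fun_prop)
  · ext x
    simp only [Set.mem_univ, iff_true]
    exact ⟨_, ⟨x, rfl⟩, rfl⟩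
  · ext x
    simp only [Set.mem_univ, iff_true]
    exact ⟨_, ⟨x - N, rfl⟩, by simp⟩
  · refine le_iInf₂ ?_
    rintro _ ⟨x, rfl⟩
    rw [edist_dist, Real.dist_eq]
    simp

theorem span_le_semispan (Y : Type) [MetricSpace Y] : surjectiveSpan Y ≤ surjectiveSemispan Y :=
  iSup_mono fun _ => iSup_mono fun _ => iSup_le fun h => le_iSup_of_le (Or.inl h.1) le_rfl

/-- **All pairs.** A pair `(a, b)` of elements of `[0, ∞]` is the pair (surjective span,
surjective semi-span) of a nonempty connected metric space if and only if `a ≤ b`; if `a ≤ b`,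
then the space can be taken complete, locally compact and path connected. -/
theorem result (a b : ℝ≥0∞) :
    ((∃ (X : Type) (_ : MetricSpace X), ConnectedSpace X ∧
      surjectiveSpan X = a ∧ surjectiveSemispan X = b) ↔ a ≤ b) ∧
    (a ≤ b → ∃ (X : Type) (_ : MetricSpace X),
      CompleteSpace X ∧ LocallyCompactSpace X ∧ PathConnectedSpace X ∧
      surjectiveSpan X = a ∧ surjectiveSemispan X = b) := by
  have main : a ≤ b → ∃ (X : Type) (_ : MetricSpace X),
      CompleteSpace X ∧ LocallyCompactSpace X ∧ PathConnectedSpace X ∧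
      surjectiveSpan X = a ∧ surjectiveSemispan X = b := by
    intro hab
    rcases eq_or_ne b 0 with hb | hb
    · subst hb
      obtain rfl : a = 0 := le_antisymm hab zero_le
      have h0 : surjectiveSemispan Unit = 0 := by
        refine le_antisymm ?_ zero_le
        refine iSup_le fun C => iSup_le fun hC => iSup_le fun hs => ?_
        obtain ⟨v, hv⟩ := hC.nonempty
        refine (iInf₂_le v hv).trans ?_
        simp
      exact ⟨Unit, inferInstance, inferInstance, inferInstance, inferInstance,
        le_antisymm ((span_le_semispan Unit).trans h0.le) zero_le, h0⟩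
    · rcases eq_or_ne a ⊤ with ha | ha
      · subst ha
        obtain rfl : b = ⊤ := top_unique hab
        exact ⟨ℝ, inferInstance, inferInstance, inferInstance, inferInstance, line_span,
          top_unique (line_span.symm.le.trans (span_le_semispan ℝ))⟩
      · have : Fact (b ≠ 0) := ⟨hb⟩
        refine ⟨Sp b a.toReal, inferInstance, complete _, locallyCompact _,
          pathConnected ENNReal.toReal_nonneg, ?_, semispan_eq ENNReal.toReal_nonneg⟩
        rw [span_eq ENNReal.toReal_nonneg, ENNReal.ofReal_toReal ha, min_eq_right hab]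
  refine ⟨⟨?_, fun h => ?_⟩, main⟩
  · rintro ⟨X, _, _, rfl, rfl⟩
    exact span_le_semispan X
  · obtain ⟨X, hX, -, -, h1, h2⟩ := main h
    exact ⟨X, hX, inferInstance, h2⟩

end Pool.Agent.Results.MP_c087c9_gt.AllPairs
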